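import Pool.Agent.H74.BT.FinalG
import Pool.Agent.H74.BT.Syn

/-!
For every `k` the prime `(k+1)`-tuples conjecture holds, with all patterns and for every finite colouring
of the primes, for almost all `k`-tuples of elements of a Bohr neighbourhood of `0`.
-/

namespace Pool.Agent.Results.MP_8923e7_nt.BohrTuples

/-- the Bohr neighbourhood of `0` given by the frequencies `α` and the radius `ρ` -/
def Bohr {J : ℕ} (α : Fin J → ℝ) (ρ : ℝ) : Set ℤ :=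
  {h | ∀ i, ∃ m : ℤ, |(h : ℝ) * α i - m| < ρ}

/-- for some colour `i` every subset `E` of `F` is, for infinitely many `N`, the set of all `x` in `F` such
that `N + x` is a prime of colour `i` -/
def Shattered {r : ℕ} (c : ℕ → Fin r) (F : Set ℤ) : Prop :=
  ∃ i : Fin r, ∀ E : Set ℤ, E ⊆ F →
    {N : ℕ | ∀ x ∈ F, (((N : ℤ) + x).toNat.Prime ∧ c ((N : ℤ) + x).toNat = i) ↔ x ∈ E}.Infinite

open Classical in
theorem result {r : ℕ} (c : ℕ → Fin r) (k : ℕ) :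
    ∃ (J : ℕ) (α : Fin J → ℝ) (ρ : ℝ), 0 < ρ ∧
      (∃ p : ℝ, 0 < p ∧ ∃ X₀ : ℕ, ∀ X : ℕ, X₀ ≤ X → ∀ z : Fin k → ℤ,
        p * (X : ℝ) ^ k ≤ ((Fintype.piFinset (fun j => Finset.Ioc (z j) (z j + X))).filter
          (fun a => ∀ j, a j ∈ Bohr α ρ)).card) ∧
      ∀ ε : ℝ, 0 < ε → ∃ X₀ : ℕ, ∀ X : ℕ, X₀ ≤ X → ∀ z : Fin k → ℤ,
        (((Fintype.piFinset (fun j => Finset.Ioc (z j) (z j + X))).filter
          (fun a => (∀ j, a j ∈ Bohr α ρ) ∧ ¬ Shattered c (insert 0 (Set.range a)))).card : ℝ) ≤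
          ε * (X : ℝ) ^ k := by
  obtain ⟨J, α, ρ, hρ, H⟩ := Pool.Agent.H74.BT.bohr_shat c k
  refine ⟨J, α, ρ, hρ, ?_, fun ε hε => ?_⟩
  · obtain ⟨p, hp, X₀, h⟩ := Pool.Agent.H74.BT.boh_density_pow α hρ k
    exact ⟨p, hp, X₀, fun X hX z => h X hX z⟩
  · obtain ⟨X₀, h⟩ := H ε hε
    refine ⟨X₀, fun X hX z => le_trans (Nat.cast_le.2 (Finset.card_le_card ?_)) (h X hX z)⟩
    intro a ha
    rw [Finset.mem_filter] at ha ⊢
    refine ⟨ha.1, ha.2.1, ?_⟩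
    rintro ⟨i, hi⟩
    refine ha.2.2 ⟨i, ?_⟩
    have h1 : Set.range (Fin.cons 0 a : Fin (k + 1) → ℤ) = insert 0 (Set.range a) := by
      ext x
      rw [Set.mem_insert_iff]
      constructor
      · rintro ⟨j, rfl⟩
        refine Fin.cases (Or.inl rfl) (fun j => Or.inr ⟨j, rfl⟩) j
      · rintro (rfl | ⟨j, rfl⟩)
        · exact ⟨0, rfl⟩
        · exact ⟨j.succ, rfl⟩
    rw [h1] at hi
    exact hi

end Pool.Agent.Results.MP_8923e7_nt.BohrTuples
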