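import Pool.Agent.H74.BT.Lin

/-!
For almost all admissible `k`-tuples, with a power saving, a positive proportion of the `k` numbers
`N + a_j` are primes simultaneously for infinitely many `N`.
-/

namespace Pool.Agent.Results.MP_8923e7_nt.LinearProportion

/-- for every prime `p` there is `b` such that `p` divides none of the `b + a_j` -/
def Admissible {k : ℕ} (a : Fin k → ℤ) : Prop :=
  ∀ p : ℕ, p.Prime → ∃ b : ℤ, ∀ j, ¬ (p : ℤ) ∣ b + a j

/-- for some colour `i` there are at least `q` indices such that every set `E'` of these indices is, for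
infinitely many `N`, exactly the set of all `j` such that `N + a_j` is a prime of colour `i` -/
def Many {r k : ℕ} (q : ℝ) (c : ℕ → Fin r) (a : Fin k → ℤ) : Prop :=
  ∃ (i : Fin r) (E : Finset (Fin k)), q ≤ E.card ∧ ∀ E' : Finset (Fin k), E' ⊆ E →
    {N : ℕ | ∀ j, (((N : ℤ) + a j).toNat.Prime ∧ c ((N : ℤ) + a j).toNat = i) ↔ j ∈ E'}.Infinite

open Classical in
theorem result (r : ℕ) : ∃ c₀ : ℝ, 0 < c₀ ∧ ∀ k : ℕ, 1 ≤ k → ∃ δ C : ℝ, 0 < δ ∧
    ∀ (c : ℕ → Fin r) (n : ℕ) (A : Fin k → Finset ℤ), 1 ≤ n → (∀ j, (A j).card ≤ n) →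
      (((Fintype.piFinset A).filter
        (fun a => Admissible a ∧ ¬ Many (c₀ * k) c a)).card : ℝ) ≤ C * (n : ℝ) ^ ((k : ℝ) - δ) := by
  obtain ⟨c₀, hc₀, H⟩ := Pool.Agent.H74.BT.linear r
  refine ⟨c₀, hc₀, fun k hk => ?_⟩
  obtain ⟨δ, C, hδ, h⟩ := H k hk
  refine ⟨δ, C, hδ, fun c n A hn hA => ?_⟩
  exact h c n A hn hA

end Pool.Agent.Results.MP_8923e7_nt.LinearProportion
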